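import Mathlib

set_option autoImplicit false

namespace Pool.Agent.Results.MP_1f55c7_lc.Differ

inductive Fm
  | var (n : ℕ)
  | bot
  | and (φ ψ : Fm)
  | or (φ ψ : Fm)
  | imp (φ ψ : Fm)
  | box (φ : Fm)
  | dia (φ : Fm)

namespace Fm

def neg (φ : Fm) : Fm := imp φ bot

def subst (σ : ℕ → Fm) : Fm → Fm
  | var n => σ n
  | bot => bot
  | and φ ψ => and (φ.subst σ) (ψ.subst σ)
  | or φ ψ => or (φ.subst σ) (ψ.subst σ)
  | imp φ ψ => imp (φ.subst σ) (ψ.subst σ)
  | box φ => box (φ.subst σ)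
  | dia φ => dia (φ.subst σ)

def DiaFree : Fm → Prop
  | var _ => True
  | bot => True
  | and φ ψ => φ.DiaFree ∧ ψ.DiaFree
  | or φ ψ => φ.DiaFree ∧ ψ.DiaFree
  | imp φ ψ => φ.DiaFree ∧ ψ.DiaFree
  | box φ => φ.DiaFree
  | dia _ => False

end Fm

open Fm

/-- Theorems of `CK_□ ⊕ A`. -/
inductive Thm (A : Set Fm) : Fm → Prop
  | ax {φ} : φ ∈ A → Thm A φ
  | k (φ ψ) : Thm A (imp φ (imp ψ φ))
  | s (φ ψ χ) : Thm A (imp (imp φ (imp ψ χ)) (imp (imp φ ψ) (imp φ χ)))
  | and1 (φ ψ) : Thm A (imp (and φ ψ) φ)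
  | and2 (φ ψ) : Thm A (imp (and φ ψ) ψ)
  | and3 (φ ψ) : Thm A (imp φ (imp ψ (and φ ψ)))
  | or1 (φ ψ) : Thm A (imp φ (or φ ψ))
  | or2 (φ ψ) : Thm A (imp ψ (or φ ψ))
  | or3 (φ ψ χ) : Thm A (imp (imp φ χ) (imp (imp ψ χ) (imp (or φ ψ) χ)))
  | efq (φ) : Thm A (imp bot φ)
  | kbox (φ ψ) : Thm A (imp (box (imp φ ψ)) (imp (box φ) (box ψ)))
  | mp {φ ψ} : Thm A (imp φ ψ) → Thm A φ → Thm A ψ
  | nec {φ} : Thm A φ → Thm A (box φ)
  | sub {φ} (σ : ℕ → Fm) : Thm A φ → Thm A (φ.subst σ)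

def Kd : Fm := imp (box (imp (var 0) (var 1))) (imp (dia (var 0)) (dia (var 1)))
def Nd : Fm := imp (dia bot) bot
def Cd : Fm := imp (dia (or (var 0) (var 1))) (or (dia (var 0)) (dia (var 1)))
def wCD : Fm := imp (box (or (var 0) (var 1))) (imp (imp (dia (var 0)) (box (var 1))) (box (var 1)))

def L1 : Fm → Prop := Thm {Kd, Nd, wCD}
def L2 : Fm → Prop := Thm {Kd, Nd, wCD, Cd}

/-! ### Deduction -/

inductive Der (A : Set Fm) (Γ : List Fm) : Fm → Prop
  | hyp {φ} : φ ∈ Γ → Der A Γ φ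
  | thm {φ} : Thm A φ → Der A Γ φ
  | mp {φ ψ} : Der A Γ (imp φ ψ) → Der A Γ φ → Der A Γ ψ

variable {A : Set Fm}

lemma ded {Γ : List Fm} {φ ψ : Fm} (h : Der A (φ :: Γ) ψ) : Der A Γ (imp φ ψ) := by
  induction h with
  | hyp h =>
    rcases List.mem_cons.1 h with rfl | h
    · exact .thm (.mp (.mp (.s _ (imp bot _) _) (.k _ _)) (.k _ _))
    · exact (Der.thm (.k _ _)).mp (.hyp h)
  | thm h => exact .thm (.mp (.k _ _) h)
  | mp _ _ h1 h2 => exact ((Der.thm (.s _ _ _)).mp h1).mp h2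

lemma close {φ : Fm} (h : Der A [] φ) : Thm A φ := by
  induction h with
  | hyp h => simp at h
  | thm h => exact h
  | mp _ _ h1 h2 => exact h1.mp h2

lemma contra (φ ψ : Fm) : Thm A (imp (box (imp φ ψ)) (imp (box ψ.neg) (box φ.neg))) := by
  have a : Thm A (imp (imp φ ψ) (imp ψ.neg φ.neg)) :=
    close (ded (ded (ded (.mp (φ := ψ) (.hyp (by simp [neg]))
      (.mp (φ := φ) (.hyp (by simp)) (.hyp (by simp)))))))
  exact close (ded ((Der.thm (.kbox _ _)).mp
    (((Der.thm (.kbox _ _)).mp (.thm a.nec)).mp (.hyp (by simp)))))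

lemma kd (h : Kd ∈ A) (φ ψ : Fm) : Thm A (imp (box (imp φ ψ)) (imp (dia φ) (dia ψ))) :=
  (Thm.ax h).sub fun n => if n = 0 then φ else ψ

lemma dia_le (h : Kd ∈ A) (h' : Nd ∈ A) (φ : Fm) : Thm A (imp (dia φ) (box φ.neg).neg) :=
  close (ded (ded ((Der.thm (.ax h')).mp (((Der.thm (kd h φ bot)).mp
    (.hyp (by simp [neg]))).mp (.hyp (by simp))))))

def wCD' : Fm := imp (box (or (var 0) (var 1)))
  (imp (imp (box (var 0).neg).neg (box (var 1))) (box (var 1)))

lemma l1_wCD' : L1 wCD' :=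
  close (ded (ded (((Der.thm (.ax (φ := wCD) (by simp))).mp (.hyp (by simp))).mp
    (ded (.mp (φ := (box (var 0).neg).neg) (.hyp (by simp))
      ((Der.thm (dia_le (by simp) (by simp) _)).mp (.hyp (by simp))))))))

def big (g : ℕ → Fm) : ℕ → Fm
  | 0 => bot
  | m + 1 => .or (big g m) (g m)

def D (M : ℕ) : Fm := imp (box (imp (var 0) (big (fun k => var (k + 2)) M)))
  (big (fun k => (box (var (k + 2)).neg).neg) M)

def chi (M : ℕ) : Fm :=
  imp (box (or (var 0) (var 1))) (imp (imp (D M) (box (var 1))) (box (var 1)))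

lemma big_free (g : ℕ → Fm) (h : ∀ k, (g k).DiaFree) (m : ℕ) : (big g m).DiaFree := by
  induction m with
  | zero => trivial
  | succ m ih => exact ⟨ih, h m⟩

lemma l2_big (g : ℕ → Fm) (m : ℕ) :
    L2 (imp (dia (big g m)) (big (fun k => (box (g k).neg).neg) m)) := by
  induction m with
  | zero => exact .ax (by simp [Nd, big])
  | succ m ih =>
    have c : L2 (imp (dia (or (big g m) (g m))) (or (dia (big g m)) (dia (g m)))) :=
      (Thm.ax (φ := Cd) (by simp)).sub fun n => if n = 0 then big g m else g m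
    have e : L2 (imp (or (dia (big g m)) (dia (g m)))
        (big (fun k => (box (g k).neg).neg) (m + 1))) :=
      ((Thm.or3 _ _ _).mp (close (ded ((Der.thm (.or1 _ _)).mp
        ((Der.thm ih).mp (.hyp (by simp))))))).mp
        (close (ded ((Der.thm (.or2 _ _)).mp
        ((Der.thm (dia_le (by simp) (by simp) _)).mp (.hyp (by simp))))))
    exact close (ded ((Der.thm e).mp ((Der.thm c).mp (.hyp (by simp [big])))))

lemma l2_chi (M : ℕ) : L2 (chi M) := by
  have d : L2 (imp (dia (var 0)) (D M)) :=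
    close (ded (ded ((Der.thm (l2_big _ M)).mp (((Der.thm (kd (by simp) (var 0) _)).mp
      (.hyp (by simp))).mp (.hyp (by simp))))))
  exact close (ded (ded (((Der.thm (.ax (φ := wCD) (by simp))).mp (.hyp (by simp))).mp
    (ded (.mp (φ := D M) (.hyp (by simp)) ((Der.thm d).mp (.hyp (by simp))))))))

/-! ### Translation -/

def tr : Fm → Fm
  | var n => var n
  | bot => bot
  | .and φ ψ => .and (tr φ) (tr ψ)
  | .or φ ψ => .or (tr φ) (tr ψ)
  | imp φ ψ => imp (tr φ) (tr ψ)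
  | box φ => box (tr φ)
  | dia φ => (box (tr φ).neg).neg

lemma tr_free (φ : Fm) (h : φ.DiaFree) : tr φ = φ := by
  induction φ <;> simp_all [tr, DiaFree]

lemma tr_subst (σ : ℕ → Fm) (φ : Fm) : tr (φ.subst σ) = (tr φ).subst fun n => tr (σ n) := by
  induction φ <;> simp_all [tr, subst, neg]

lemma tr_thm {φ : Fm} (h : L1 φ) : Thm {wCD'} (tr φ) := by
  induction h with
  | ax h =>
    rcases h with rfl | rfl | rfl
    · exact close (ded (ded (ded (.mp (φ := box (var 0).neg) (.hyp (by simp [neg, tr]))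
        (((Der.thm (contra (var 0) (var 1))).mp (.hyp (by simp [tr]))).mp
          (.hyp (by simp [tr])))))))
    · exact close (ded (.mp (φ := box bot.neg) (.hyp (by simp [neg, tr]))
        (.thm (Thm.efq _).nec)))
    · exact .ax rfl
  | k => exact .k _ _
  | s => exact .s _ _ _
  | and1 => exact .and1 _ _
  | and2 => exact .and2 _ _
  | and3 => exact .and3 _ _
  | or1 => exact .or1 _ _
  | or2 => exact .or2 _ _
  | or3 => exact .or3 _ _ _
  | efq => exact .efq _
  | kbox => exact .kbox _ _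
  | mp _ _ h1 h2 => exact h1.mp h2
  | nec _ h => exact h.nec
  | sub σ _ h => rw [tr_subst]; exact h.sub _

lemma lift {B : Set Fm} (hB : ∀ φ ∈ B, Thm A φ) {φ : Fm} (h : Thm B φ) : Thm A φ := by
  induction h with
  | ax h => exact hB _ h
  | k => exact .k _ _
  | s => exact .s _ _ _
  | and1 => exact .and1 _ _
  | and2 => exact .and2 _ _
  | and3 => exact .and3 _ _
  | or1 => exact .or1 _ _
  | or2 => exact .or2 _ _
  | or3 => exact .or3 _ _ _
  | efq => exact .efq _
  | kbox => exact .kbox _ _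
  | mp _ _ h1 h2 => exact h1.mp h2
  | nec _ h => exact h.nec
  | sub σ _ h => exact h.sub _

/-! ### The frames -/

inductive W (M : ℕ)
  | w | u | v (k : Fin M) | y | l (k : Fin M)

open W

variable {M : ℕ}

def le : W M → W M → Prop
  | w, u => True
  | w, v _ => True
  | u, v _ => True
  | y, l _ => True
  | a, b => a = b

def R : W M → W M → Prop
  | w, y => True
  | w, l _ => True
  | u, l _ => True
  | v k, l j => j ≠ k
  | _, _ => False

def R' (i : Fin M) : W M → W M → Prop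
  | w, y => True
  | u, l j => j = i
  | v k, l j => j ≠ k
  | _, _ => False

lemma le_rf (x : W M) : le x x := by cases x <;> simp [le]
lemma le_tr (x a z : W M) : le x a → le a z → le x z := by
  cases x <;> cases a <;> cases z <;> simp_all [le]
lemma R_an (x a z : W M) : le x a → R a z → R x z := by
  cases x <;> cases a <;> cases z <;> simp_all [le, R]
lemma R'_le (i : Fin M) (x z : W M) : R' i x z → R x z := by
  cases x <;> cases z <;> simp_all [R, R']

def fc (d : (W M → Prop) → W M → Prop) (V : ℕ → W M → Prop) : Fm → W M → Prop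
  | var n => V n
  | bot => fun _ => False
  | .and φ ψ => fun x => fc d V φ x ∧ fc d V ψ x
  | .or φ ψ => fun x => fc d V φ x ∨ fc d V ψ x
  | imp φ ψ => fun x => ∀ z, le x z → fc d V φ z → fc d V ψ z
  | box φ => fun x => ∀ z, R x z → fc d V φ z
  | dia φ => d (fc d V φ)

def Up (U : W M → Prop) : Prop := ∀ x z, le x z → U x → U z

lemma fc_subst (d : (W M → Prop) → W M → Prop) (V : ℕ → W M → Prop) (σ : ℕ → Fm) (φ : Fm) :
    fc d V (φ.subst σ) = fc d (fun n => fc d V (σ n)) φ := by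
  induction φ <;> simp_all [fc, subst]

lemma sound (d : (W M → Prop) → W M → Prop) (Adm : (W M → Prop) → Prop)
    (hu : ∀ U, Adm U → Up U) (hc : ∀ V, (∀ n, Adm (V n)) → ∀ φ, Adm (fc d V φ))
    (hA : ∀ χ ∈ A, ∀ V, (∀ n, Adm (V n)) → ∀ x, fc d V χ x) {φ : Fm} (h : Thm A φ) :
    ∀ V, (∀ n, Adm (V n)) → ∀ x, fc d V φ x := by
  induction h with
  | ax h => exact hA _ h
  | k φ => exact fun V hV _ x _ a z l _ => hu _ (hc V hV φ) x z l a
  | s =>
    exact fun V _ _ x _ a t l b z l' c => a z (le_tr _ _ _ l l') c z (le_rf z) (b z l' c)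
  | and1 => exact fun V _ _ _ _ a => a.1
  | and2 => exact fun V _ _ _ _ a => a.2
  | and3 φ => exact fun V hV _ x _ a z l b => ⟨hu _ (hc V hV φ) x z l a, b⟩
  | or1 => exact fun V _ _ _ _ a => Or.inl a
  | or2 => exact fun V _ _ _ _ a => Or.inr a
  | or3 => exact fun V _ _ x _ a t l b z l' c => c.elim (a z (le_tr _ _ _ l l')) (b z l')
  | efq => exact fun V _ _ _ _ a => a.elim
  | kbox => exact fun V _ _ x _ a t l b z r => a z (R_an _ _ _ l r) z (le_rf z) (b z r)
  | mp _ _ h1 h2 => exact fun V hV x => h1 V hV x x (le_rf x) (h2 V hV x)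
  | nec _ h => exact fun V hV _ z _ => h V hV z
  | sub σ _ h =>
    intro V hV
    rw [fc_subst]
    exact h _ fun n => hc V hV (σ n)

lemma up_fc (d : (W M → Prop) → W M → Prop) (V : ℕ → W M → Prop) (hV : ∀ n, Up (V n))
    (hd : ∀ φ, Up (d (fc d V φ))) (φ : Fm) : Up (fc d V φ) := by
  induction φ with
  | var n => exact hV n
  | bot => exact fun _ _ _ => id
  | and φ ψ h1 h2 => exact fun x z l a => ⟨h1 x z l a.1, h2 x z l a.2⟩
  | or φ ψ h1 h2 => exact fun x z l a => a.imp (h1 x z l) (h2 x z l)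
  | imp φ ψ => exact fun x t l a z l' => a z (le_tr _ _ _ l l')
  | box φ => exact fun x t l a z l' => a z (R_an _ _ _ l l')
  | dia φ => exact hd φ

def dd (i : Fin M) (U : W M → Prop) (x : W M) : Prop := ∃ z, R' i x z ∧ U z

lemma l2_sound (i j : Fin M) (hij : i ≠ j) {φ : Fm} (h : L2 φ) :
    ∀ V : ℕ → W M → Prop, (∀ n, Up (V n) ∧ (V n (l i) ↔ V n (l j))) → ∀ x, fc (dd i) V φ x := by
  have le_l : ∀ (k : Fin M) z, le (l k) z ↔ z = l k := fun k z => by
    cases z <;> simp [le, eq_comm]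
  refine sound (dd i) (fun U => Up U ∧ (U (l i) ↔ U (l j))) (fun _ h => h.1) ?_ ?_ h
  · intro V hV φ
    induction φ with
    | var n => exact hV n
    | bot => exact ⟨fun _ _ _ => id, Iff.rfl⟩
    | and φ ψ h1 h2 =>
      exact ⟨fun x z l a => ⟨h1.1 x z l a.1, h2.1 x z l a.2⟩, and_congr h1.2 h2.2⟩
    | or φ ψ h1 h2 =>
      exact ⟨fun x z l a => a.imp (h1.1 x z l) (h2.1 x z l), or_congr h1.2 h2.2⟩
    | imp φ ψ h1 h2 =>
      exact ⟨fun x t l a z l' => a z (le_tr _ _ _ l l'), by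
        simp only [fc, le_l, forall_eq, h1.2, h2.2]⟩
    | box φ => exact ⟨fun x t l a z l' => a z (R_an _ _ _ l l'), by simp [fc, R]⟩
    | dia φ h =>
      refine ⟨?_, by simp [fc, dd, R']⟩
      rintro x t l ⟨z, r, a⟩
      have key : fc (dd i) V φ (.l i) → t ≠ w → dd i (fc (dd i) V φ) t ∨ t = y ∨ ∃ k, t = .l k := by
        intro b ht
        cases t with
        | w => exact absurd rfl ht
        | u => exact Or.inl ⟨.l i, rfl, b⟩
        | v k =>
          by_cases e : i = k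
          · exact Or.inl ⟨.l j, fun e' => hij (e.trans e'.symm), h.2.1 b⟩
          · exact Or.inl ⟨.l i, e, b⟩
        | y => simp
        | l k => simp
      cases x <;> cases z <;> simp only [R'] at r
      · by_cases ht : t = w
        · exact ht ▸ ⟨y, trivial, a⟩
        · rcases key (h.1 y _ trivial a) ht with b | rfl | ⟨k, rfl⟩
          · exact b
          · cases l
          · cases l
      · subst r
        rcases key a (by rintro rfl; cases l) with b | rfl | ⟨k, rfl⟩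
        · exact b
        · cases l
        · cases l
      · cases t <;> cases l
        exact ⟨.l _, r, a⟩
  · rintro χ (rfl | rfl | rfl | rfl) V hV
    · rintro _ x _ a t l ⟨z, r, b⟩
      exact ⟨z, r, a z (R_an _ _ _ l (R'_le i _ _ r)) z (le_rf z) b⟩
    · rintro _ x _ ⟨z, -, b⟩
      exact b
    · intro _ x _ a t l b z r
      rcases a z (R_an _ _ _ l r) with p | q
      · by_cases r' : R' i t z
        · exact b t (le_rf t) ⟨z, r', p⟩ z r
        · obtain ⟨k, hk, hl⟩ : ∃ k, R' i (v k) z ∧ le t (v k) := by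
            cases t <;> cases z <;> simp only [R, R'] at r r'
            · exact absurd trivial r'
            · rename_i k
              by_cases e : k = i
              · exact ⟨j, fun e' => hij (e.symm.trans e'), trivial⟩
              · exact ⟨i, e, trivial⟩
            · exact ⟨i, r', trivial⟩
            · exact absurd r r'
          exact b _ hl ⟨z, hk, p⟩ z (R'_le i _ _ hk)
      · exact q
    · rintro _ x _ ⟨z, r, b | b⟩
      · exact Or.inl ⟨z, r, b⟩
      · exact Or.inr ⟨z, r, b⟩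

def bd : Fm → ℕ
  | var n => n + 1
  | bot => 0
  | .and φ ψ => max (bd φ) (bd ψ)
  | .or φ ψ => max (bd φ) (bd ψ)
  | imp φ ψ => max (bd φ) (bd ψ)
  | box φ => bd φ
  | dia φ => bd φ

lemma fc_congr (d d' : (W M → Prop) → W M → Prop) (V V' : ℕ → W M → Prop) (n : ℕ)
    (h : ∀ m < n, V m = V' m) (φ : Fm) (hf : φ.DiaFree) (hb : bd φ ≤ n) :
    fc d V φ = fc d' V' φ := by
  induction φ with
  | var m => exact h m hb
  | _ => simp_all [fc, bd, DiaFree]

lemma valid (n : ℕ) {φ : Fm} (hf : φ.DiaFree) (hb : bd φ ≤ n) (h : L2 φ)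
    (V : ℕ → W (2 ^ n + 1) → Prop) (hV : ∀ m, Up (V m)) (x : W (2 ^ n + 1)) :
    fc (fun _ _ => True) V φ x := by
  classical
  obtain ⟨i, j, hij, e⟩ := Fintype.exists_ne_map_eq_of_card_lt
    (fun (k : Fin (2 ^ n + 1)) (m : Fin n) => decide (V m (l k))) (by simp)
  rw [fc_congr _ (dd i) V (fun m => if m < n then V m else fun _ => True) n
    (fun m hm => (if_pos hm).symm) φ hf hb]
  refine l2_sound i j hij h _ (fun m => ?_) x
  split_ifs with hm
  · exact ⟨hV m, by simpa using congrFun e ⟨m, hm⟩⟩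
  · exact ⟨fun _ _ _ => id, Iff.rfl⟩

lemma fc_big (d : (W M → Prop) → W M → Prop) (V : ℕ → W M → Prop) (g : ℕ → Fm) (m : ℕ)
    (x : W M) : fc d V (big g m) x ↔ ∃ k < m, fc d V (g k) x := by
  induction m with
  | zero => simp [big, fc]
  | succ m ih => simp only [big, fc, ih, Nat.exists_lt_succ_right]

def V0 : ℕ → W M → Prop
  | 0, x => x = y ∨ ∃ k, x = l k
  | 1, x => ∃ k, x = l k
  | n + 2, x => ∃ k : Fin M, k.1 = n ∧ x = l k

lemma up0 (n : ℕ) : Up (V0 (M := M) n) := by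
  intro a b
  match n with
  | 0 => cases a <;> cases b <;> simp_all [V0, le]
  | 1 => cases a <;> cases b <;> simp_all [V0, le]
  | n + 2 => cases a <;> cases b <;> simp_all [V0, le]

lemma not_chi (d : (W M → Prop) → W M → Prop) : ¬ fc d V0 (chi M) w := by
  intro h
  have := h w (le_rf _) (fun z r => by cases z <;> simp_all [R, fc, V0]) w (le_rf _)
    (fun x _ hD z r => ?_) y trivial
  · simp [fc, V0] at this
  · cases x <;> cases z <;> simp only [R] at r
    case w.y =>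
      exfalso
      obtain ⟨k, hk, a⟩ := (fc_big _ _ _ _ _).1 (hD u trivial fun z r t l _ => by
        cases z <;> simp only [R] at r
        cases t <;> cases l
        rename_i k _
        exact (fc_big _ _ _ _ _).2 ⟨k, k.2, k, rfl, rfl⟩)
      refine a (v ⟨k, hk⟩) trivial fun z r t l b => ?_
      cases z <;> simp only [R] at r
      cases t <;> cases l
      obtain ⟨k', e1, e2⟩ := b
      cases e2
      exact r (Fin.ext e1)
    all_goals exact ⟨_, rfl⟩

/-- The `◇`-free fragment of `L` is finitely axiomatisable over `CK_□`. -/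
def FinAx (L : Fm → Prop) : Prop :=
  ∃ B : Set Fm, B.Finite ∧ (∀ χ ∈ B, χ.DiaFree) ∧ ∀ φ : Fm, φ.DiaFree → (L φ ↔ Thm B φ)

lemma fin1 : FinAx L1 := by
  refine ⟨{wCD'}, Set.finite_singleton _, ?_, ?_⟩
  · rintro _ rfl
    simp [wCD', neg, DiaFree]
  · refine fun φ h => ⟨fun h' => tr_free φ h ▸ tr_thm h', lift ?_⟩
    rintro _ rfl
    exact l1_wCD'

lemma fin2 : ¬ FinAx L2 := by
  rintro ⟨B, hB, h1, h2⟩
  obtain ⟨n, hn⟩ := (hB.image bd).bddAbove
  have f : (chi (2 ^ n + 1)).DiaFree :=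
    ⟨⟨trivial, trivial⟩, ⟨⟨⟨trivial, big_free (fun k => var (k + 2)) (fun _ => trivial) _⟩,
      big_free (fun k => (box (var (k + 2)).neg).neg)
        (fun _ => ⟨⟨trivial, trivial⟩, trivial⟩) _⟩, trivial⟩, trivial⟩
  refine not_chi (fun _ _ => True) (sound _ Up (fun _ => id)
    (fun V hV => up_fc _ V hV fun _ _ _ _ => id) ?_ ((h2 _ f).1 (l2_chi _)) V0 up0 w)
  intro χ hχ V hV x
  exact valid n (h1 χ hχ) (hn ⟨χ, hχ, rfl⟩) ((h2 χ (h1 χ hχ)).2 (.ax hχ)) V hV x

theorem result : (∃ φ : Fm, φ.DiaFree ∧ L2 φ ∧ ¬ L1 φ) ∧ FinAx L1 ∧ ¬ FinAx L2 := by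
  refine ⟨?_, fin1, fin2⟩
  by_contra hc
  push Not at hc
  obtain ⟨B, h0, h1, h2⟩ := fin1
  refine fin2 ⟨B, h0, h1, fun φ h => Iff.trans ⟨hc φ h, lift fun ψ hψ => .ax ?_⟩ (h2 φ h)⟩
  rcases hψ with rfl | rfl | rfl <;> simp

end Pool.Agent.Results.MP_1f55c7_lc.Differ
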